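import Pool.Agent.H104.ML.Stm

/-! Project ML (helper104), job CYC: the roots of a product of cyclotomic polynomials. -/

set_option autoImplicit false

open Polynomial Finset MeasureTheory

namespace Pool.Agent.Q25.ML

open Pool.Agent.H104.ML

open Classical in
/-- the multiplicities -/
theorem mult {S : Finset ℕ} {μ : ℕ → ℕ} {D : ℕ} {α : Fin D → ℂ} (hS : ∀ b ∈ S, 1 ≤ b)
    (hα : (gg S μ).map (Int.castRingHom ℂ) = ∏ s, (X - C (α s))) (z : ℂ) :
    (univ.filter (fun s => α s = z)).card =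
      ∑ b ∈ S, if z ∈ primitiveRoots b ℂ then μ b else 0 := by
  have h1 : (∏ s, (X - C (α s)) : ℂ[X]).roots = (univ : Finset (Fin D)).val.map α := by
    have : (∏ s, (X - C (α s)) : ℂ[X]) =
        (((univ : Finset (Fin D)).val.map α).map fun a => X - C a).prod := by
      rw [Multiset.map_map]
      rfl
    rw [this, roots_multiset_prod_X_sub_C]
  have h2 : (gg S μ).map (Int.castRingHom ℂ) = ∏ b ∈ S, (cyclotomic b ℂ) ^ μ b := by
    unfold gg
    rw [Polynomial.map_prod]
    refine Finset.prod_congr rfl fun b _ => ?_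
    rw [Polynomial.map_pow, map_cyclotomic]
  have h3 : (∏ b ∈ S, (cyclotomic b ℂ) ^ μ b) ≠ 0 := by
    rw [Finset.prod_ne_zero_iff]
    exact fun b _ => pow_ne_zero _ (cyclotomic_ne_zero b ℂ)
  have h4 : (∏ b ∈ S, (cyclotomic b ℂ) ^ μ b).roots.count z =
      ∑ b ∈ S, if z ∈ primitiveRoots b ℂ then μ b else 0 := by
    rw [roots_prod _ _ h3, Multiset.count_bind]
    change (∑ b ∈ S, Multiset.count z ((cyclotomic b ℂ) ^ μ b).roots) = _
    refine Finset.sum_congr rfl fun b hb => ?_
    haveI : NeZero (b : ℂ) := ⟨by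
      have := hS b hb
      exact_mod_cast (by omega : b ≠ 0)⟩
    rw [roots_pow, Multiset.count_nsmul, cyclotomic.roots_eq_primitiveRoots_val]
    by_cases hz : z ∈ primitiveRoots b ℂ
    · rw [if_pos hz, Multiset.count_eq_one_of_mem (primitiveRoots b ℂ).nodup hz, mul_one]
    · rw [if_neg hz, Multiset.count_eq_zero_of_notMem hz, mul_zero]
  rw [← h4, ← h2, hα, h1, Multiset.count_map]
  change _ = ((univ : Finset (Fin D)).filter (fun s => z = α s)).card
  congr 1
  ext s
  simp only [Finset.mem_filter, eq_comm]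

open Classical in
theorem mult_eq {S : Finset ℕ} {μ : ℕ → ℕ} {D : ℕ} {α : Fin D → ℂ} (hS : ∀ b ∈ S, 1 ≤ b)
    (hα : (gg S μ).map (Int.castRingHom ℂ) = ∏ s, (X - C (α s))) {b : ℕ} (hb : b ∈ S) {z : ℂ}
    (hz : z ∈ primitiveRoots b ℂ) : (univ.filter (fun s => α s = z)).card = μ b := by
  rw [mult hS hα, Finset.sum_eq_single b]
  · rw [if_pos hz]
  · intro c hc hcb
    rw [if_neg]
    intro hzc
    have h1 := isPrimitiveRoot_of_mem_primitiveRoots hz
    have h2 := isPrimitiveRoot_of_mem_primitiveRoots hzc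
    exact hcb (h2.unique h1)
  · intro h
    exact absurd hb h

open Classical in
theorem image_sub {S : Finset ℕ} {μ : ℕ → ℕ} {D : ℕ} {α : Fin D → ℂ} (hS : ∀ b ∈ S, 1 ≤ b)
    (hα : (gg S μ).map (Int.castRingHom ℂ) = ∏ s, (X - C (α s))) (s : Fin D) :
    ∃ b ∈ S, α s ∈ primitiveRoots b ℂ := by
  have h1 : 0 < (univ.filter (fun r => α r = α s)).card :=
    Finset.card_pos.2 ⟨s, Finset.mem_filter.2 ⟨Finset.mem_univ _, rfl⟩⟩
  rw [mult hS hα] at h1
  obtain ⟨b, hb, h2⟩ := Finset.exists_ne_zero_of_sum_ne_zero h1.ne'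
  refine ⟨b, hb, ?_⟩
  by_contra h
  exact h2 (if_neg h)

open Classical in
theorem key {M : Type} [AddCommMonoid M] {S : Finset ℕ} {μ : ℕ → ℕ} {D : ℕ} {α : Fin D → ℂ}
    (hS : ∀ b ∈ S, 1 ≤ b)
    (hα : (gg S μ).map (Int.castRingHom ℂ) = ∏ s, (X - C (α s))) (F : ℂ → ℕ → M)
    (hF : ∀ z, F z 0 = 0) :
    ∑ z ∈ univ.image α, F z (univ.filter (fun s => α s = z)).card =
      ∑ b ∈ S, ∑ z ∈ primitiveRoots b ℂ, F z (μ b) := by
  have h1 : ∑ z ∈ univ.image α, F z (univ.filter (fun s => α s = z)).card =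
      ∑ z ∈ S.biUnion (fun b => primitiveRoots b ℂ),
        F z (univ.filter (fun s => α s = z)).card := by
    refine Finset.sum_subset ?_ ?_
    · intro z hz
      obtain ⟨s, -, rfl⟩ := Finset.mem_image.1 hz
      obtain ⟨b, hb, h⟩ := image_sub hS hα s
      exact Finset.mem_biUnion.2 ⟨b, hb, h⟩
    · intro z _ hz
      have : (univ.filter (fun s => α s = z)) = ∅ := by
        rw [Finset.filter_eq_empty_iff]
        intro s _ hs
        exact hz (Finset.mem_image.2 ⟨s, Finset.mem_univ _, hs⟩)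
      rw [this, Finset.card_empty, hF]
  rw [h1, Finset.sum_biUnion]
  · refine Finset.sum_congr rfl fun b hb => Finset.sum_congr rfl fun z hz => ?_
    rw [mult_eq hS hα hb hz]
  · intro b _ c _ hbc
    change Disjoint (primitiveRoots b ℂ) (primitiveRoots c ℂ)
    rw [Finset.disjoint_left]
    intro z h1 h2
    exact hbc ((isPrimitiveRoot_of_mem_primitiveRoots h1).unique
      (isPrimitiveRoot_of_mem_primitiveRoots h2))

theorem log_RR (b c : ℕ) : Real.log (RR b c) =
    ∑ z ∈ primitiveRoots b ℂ, ∑ w ∈ primitiveRoots c ℂ, Real.log ‖z - w‖ := by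
  unfold RR
  have hne : ∀ z w : ℂ, w ∈ (primitiveRoots c ℂ).erase z → ‖z - w‖ ≠ 0 := by
    intro z w hw
    rw [norm_ne_zero_iff, sub_ne_zero]
    exact (Finset.ne_of_mem_erase hw).symm
  rw [Real.log_prod fun z _ => Finset.prod_ne_zero_iff.2 fun w hw => hne z w hw]
  refine Finset.sum_congr rfl fun z _ => ?_
  rw [Real.log_prod fun w hw => hne z w hw]
  refine Finset.sum_subset (Finset.erase_subset _ _) ?_
  intro w hw hw'
  have : w = z := by
    by_contra h
    exact hw' (Finset.mem_erase.2 ⟨h, hw⟩)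
  rw [this, sub_self, norm_zero, Real.log_zero]

theorem t_CYC (hG : S_GRP) : S_CYC := by
  classical
  intro S μ D α hS hα
  have h3 : ∀ f : ℕ → ℝ, ∑ s, f (tau α s) =
      ∑ b ∈ S, (b.totient : ℝ) * ∑ t ∈ range (μ b), f t := by
    intro f
    have h := (hG D α).1 fun _ t => ((f t : ℝ) : ℂ)
    have h' := key hS hα (fun (_ : ℂ) k => ∑ t ∈ range k, ((f t : ℝ) : ℂ))
      (fun _ => by rw [Finset.range_zero, Finset.sum_empty])
    have h5 : (((∑ s, f (tau α s) : ℝ)) : ℂ) =
        ((∑ b ∈ S, (b.totient : ℝ) * ∑ t ∈ range (μ b), f t : ℝ) : ℂ) := by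
      push_cast
      refine h.trans (Eq.trans ?_ (h'.trans ?_))
      · rfl
      · refine Finset.sum_congr rfl fun b _ => ?_
        rw [Finset.sum_const, Complex.card_primitiveRoots, nsmul_eq_mul]
    exact_mod_cast h5
  refine ⟨?_, ?_, h3, ?_⟩
  · intro s
    obtain ⟨b, hb, h⟩ := image_sub hS hα s
    have h1 := isPrimitiveRoot_of_mem_primitiveRoots h
    have h2 := hS b hb
    exact h1.norm'_eq_one (by omega)
  · have h := h3 fun _ => 1
    simp only [Finset.sum_const, Finset.card_univ, Fintype.card_fin, nsmul_eq_mul, mul_one,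
      Finset.card_range] at h
    exact_mod_cast h
  · have h := (hG D α).2
    refine h.trans ?_
    congr 1
    have h6 : ∀ z ∈ univ.image α, ∑ w ∈ (univ.image α).erase z,
        ((univ.filter (fun s => α s = z)).card : ℝ) * ((univ.filter (fun s => α s = w)).card : ℝ) *
          Real.log ‖z - w‖ =
        ∑ w ∈ univ.image α,
        ((univ.filter (fun s => α s = z)).card : ℝ) * ((univ.filter (fun s => α s = w)).card : ℝ) *
          Real.log ‖z - w‖ := by
      intro z hz
      refine Finset.sum_subset (Finset.erase_subset _ _) ?_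
      intro w hw hw'
      have : w = z := by
        by_contra h
        exact hw' (Finset.mem_erase.2 ⟨h, hw⟩)
      rw [this, sub_self, norm_zero, Real.log_zero, mul_zero]
    refine (Finset.sum_congr rfl h6).trans ?_
    have h7 := key hS hα (fun (z : ℂ) (k : ℕ) => ∑ w ∈ univ.image α,
        ((k : ℝ) * ((univ.filter (fun s => α s = w)).card : ℝ) * Real.log ‖z - w‖))
      (fun z => by simp)
    refine h7.trans (Finset.sum_congr rfl fun b _ => ?_)
    have h8 : ∀ z ∈ primitiveRoots b ℂ, ∑ w ∈ univ.image α,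
        ((μ b : ℝ) * ((univ.filter (fun s => α s = w)).card : ℝ) * Real.log ‖z - w‖) =
        ∑ c ∈ S, ∑ w ∈ primitiveRoots c ℂ, ((μ b : ℝ) * (μ c : ℝ) * Real.log ‖z - w‖) := by
      intro z _
      exact key hS hα (fun (w : ℂ) (k : ℕ) => (μ b : ℝ) * (k : ℝ) * Real.log ‖z - w‖)
        (fun w => by simp)
    rw [Finset.sum_congr rfl h8, Finset.sum_comm]
    refine Finset.sum_congr rfl fun c _ => ?_
    rw [log_RR, Finset.mul_sum]
    refine Finset.sum_congr rfl fun z _ => ?_
    rw [Finset.mul_sum]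

end Pool.Agent.Q25.ML
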